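import Pool.Agent.Q109.FV.Stm

set_option autoImplicit false

/-! # Job BR of project FV: branches of a tree -/

namespace Pool.Agent.Q272.FV

open SimpleGraph Q109.FV

variable {V : Type} {T : SimpleGraph V} {u x : V}

/-- Induction along reachability. -/
lemma reach_ind {G : SimpleGraph V} {a : V} {P : V → Prop} (h0 : P a)
    (hs : ∀ b c, G.Reachable a b → P b → G.Adj b c → P c) {w : V} (h : G.Reachable a w) : P w := by
  rw [reachable_iff_reflTransGen] at h
  have : G.Reachable a w ∧ P w := by
    induction h with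
    | refl => exact ⟨Reachable.refl a, h0⟩
    | tail hab hbc ih =>
      exact ⟨ih.1.trans hbc.reachable, hs _ _ ih.1 ih.2 hbc⟩
  exact this.2

lemma mem_self (T : SimpleGraph V) (u x : V) : x ∈ Br T u x := Reachable.refl x

lemma not_mem (hT : T.IsTree) (h : T.Adj u x) : u ∉ Br T u x := by
  have hb : T.IsBridge s(u, x) := isAcyclic_iff_forall_adj_isBridge.1 hT.isAcyclic h
  rw [isBridge_iff] at hb
  intro hu
  exact hb (Reachable.symm hu)

lemma leave (hT : T.IsTree) (h : T.Adj u x) {a b : V} (hab : T.Adj a b) (ha : a ∈ Br T u x)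
    (hb : b ∉ Br T u x) : a = x ∧ b = u := by
  by_cases hs : s(a, b) = s(u, x)
  · rw [Sym2.eq_iff] at hs
    rcases hs with ⟨h1, h2⟩ | ⟨h1, h2⟩
    · subst h1
      exact absurd ha (not_mem hT h)
    · exact ⟨h1, h2⟩
  · exfalso
    apply hb
    have h1 : (T.deleteEdges {s(u, x)}).Adj a b := by
      rw [deleteEdges_adj]
      exact ⟨hab, hs⟩
    exact Reachable.trans ha h1.reachable

lemma disj (hT : T.IsTree) (h : T.Adj u x) {w : V} (h1 : w ∈ Br T u x) (h2 : w ∈ Br T x u) :
    False := by
  apply not_mem hT h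
  have h3 : (T.deleteEdges {s(u, x)}).Reachable u w := by
    have : (T.deleteEdges {s(x, u)}).Reachable u w := h2
    rwa [Sym2.eq_swap] at this
  exact Reachable.trans h1 h3.symm

lemma cover (hT : T.IsTree) (h : T.Adj u x) (w : V) : w ∈ Br T u x ∨ w ∈ Br T x u := by
  have hr : T.Reachable x w := hT.connected.preconnected x w
  refine reach_ind (P := fun w => w ∈ Br T u x ∨ w ∈ Br T x u) (Or.inl (mem_self T u x)) ?_ hr
  intro b c _ hb hbc
  by_cases hc : c ∈ Br T u x
  · exact Or.inl hc
  · rcases hb with hb | hb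
    · have := leave hT h hbc hb hc
      right
      rw [this.2]
      exact mem_self T x u
    · by_cases hc' : c ∈ Br T x u
      · exact Or.inr hc'
      · have := leave hT h.symm hbc hb hc'
        left
        rw [this.2]
        exact mem_self T u x

lemma compl_eq (hT : T.IsTree) (h : T.Adj u x) : Br T x u = (Br T u x)ᶜ := by
  ext w
  constructor
  · intro h1 h2
    exact disj hT h h2 h1
  · intro h1
    rcases cover hT h w with h2 | h2
    · exact absurd h2 h1
    · exact h2

lemma induce_isTree (hT : T.IsTree) (u x : V) : (T.induce (Br T u x)).IsTree := by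
  refine ⟨?_, hT.isAcyclic.induce _⟩
  have key : ∀ w (hw : w ∈ Br T u x),
      (T.induce (Br T u x)).Reachable ⟨x, mem_self T u x⟩ ⟨w, hw⟩ := by
    intro w hw
    have h := reach_ind (G := T.deleteEdges {s(u, x)}) (a := x)
      (P := fun w => ∃ hw : w ∈ Br T u x,
        (T.induce (Br T u x)).Reachable ⟨x, mem_self T u x⟩ ⟨w, hw⟩)
      ⟨mem_self T u x, Reachable.refl _⟩ (by
        rintro b c hb ⟨hb', hr⟩ hbc
        have hc : c ∈ Br T u x := Reachable.trans hb hbc.reachable
        refine ⟨hc, hr.trans ?_⟩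
        apply Adj.reachable
        rw [deleteEdges_adj] at hbc
        exact hbc.1) hw
    exact h.2
  haveI : Nonempty (Br T u x) := ⟨⟨x, mem_self T u x⟩⟩
  refine ⟨?_⟩
  rintro ⟨a, ha⟩ ⟨b, hb⟩
  exact (key a ha).symm.trans (key b hb)

lemma induce_compl_isTree (hT : T.IsTree) (h : T.Adj u x) : (T.induce (Br T u x)ᶜ).IsTree := by
  rw [← compl_eq hT h]
  exact induce_isTree hT x u

lemma conn_subset (hT : T.IsTree) (h : T.Adj u x) (A : Set V) (hA : (T.induce A).Preconnected)
    (hm : ∃ a ∈ A, a ∈ Br T u x) (hn : ¬ (u ∈ A ∧ x ∈ A)) : A ⊆ Br T u x := by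
  obtain ⟨a, haA, haB⟩ := hm
  intro c hc
  have hr : (T.induce A).Reachable ⟨a, haA⟩ ⟨c, hc⟩ := hA _ _
  rw [reachable_iff_reflTransGen] at hr
  have : ∀ z : A, Relation.ReflTransGen (T.induce A).Adj ⟨a, haA⟩ z → (z : V) ∈ Br T u x := by
    intro z hz
    induction hz with
    | refl => exact haB
    | tail hab hbc ih =>
      rename_i b c
      by_contra hcon
      have h1 : T.Adj (b : V) (c : V) := hbc
      have h2 := leave hT h h1 ih hcon
      apply hn
      rw [← h2.1, ← h2.2]
      exact ⟨c.2, b.2⟩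
  exact this _ hr

lemma disj_branch (hT : T.IsTree) (h : T.Adj u x) (x' : V) (h' : T.Adj u x') (hne : x' ≠ x) :
    Disjoint (Br T u x) (Br T u x') := by
  rw [Set.disjoint_left]
  intro w hw hw'
  have hsub := conn_subset hT h (Br T u x') (induce_isTree hT u x').connected.preconnected
    ⟨w, hw', hw⟩ (fun hc => not_mem hT h' hc.1)
  have h1 := leave hT h h'.symm (hsub (mem_self T u x')) (not_mem hT h)
  exact hne h1.1

/-- Job BR. -/
theorem br : S_BR := by
  intro V T hT u x h
  exact ⟨not_mem hT h, compl_eq hT h, induce_isTree hT u x, induce_compl_isTree hT h,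
    fun a b hab ha hb => leave hT h hab ha hb, fun A hA hm hn => conn_subset hT h A hA hm hn,
    fun x' h' hne => disj_branch hT h x' h' hne⟩

end Pool.Agent.Q272.FV
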