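import Pool.Agent.Q272.FV.Br

set_option autoImplicit false

/-! # Jobs MOVE and HALF of project FV -/

namespace Pool.Agent.Q272.FV

open SimpleGraph Q109.FV

variable {V : Type} {T : SimpleGraph V} {u x : V}

lemma iso_mem (σ : T ≃g T) {w : V} (hw : w ∈ Br T u x) : σ w ∈ Br T (σ u) (σ x) := by
  refine reach_ind (G := T.deleteEdges {s(u, x)}) (a := x)
    (P := fun w => σ w ∈ Br T (σ u) (σ x)) (mem_self T (σ u) (σ x)) ?_ hw
  intro b c _ hb hbc
  rw [deleteEdges_adj] at hbc
  have h1 : (T.deleteEdges {s(σ u, σ x)}).Adj (σ b) (σ c) := by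
    rw [deleteEdges_adj]
    refine ⟨σ.map_rel_iff.2 hbc.1, ?_⟩
    intro hc
    apply hbc.2
    have h2 : s(σ b, σ c) = s(σ u, σ x) := hc
    show s(b, c) = s(u, x)
    rw [Sym2.eq_iff] at h2 ⊢
    rcases h2 with ⟨h3, h4⟩ | ⟨h3, h4⟩
    · exact Or.inl ⟨σ.injective h3, σ.injective h4⟩
    · exact Or.inr ⟨σ.injective h3, σ.injective h4⟩
  exact Reachable.trans hb h1.reachable

lemma iso_biso (σ : T ≃g T) (u x : V) : BIso T (Br T u x) (Br T (σ u) (σ x)) σ := by
  refine ⟨⟨fun w hw => iso_mem σ hw, σ.injective.injOn, ?_⟩, fun a _ b _ => σ.map_rel_iff⟩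
  intro w hw
  refine ⟨σ.symm w, ?_, σ.apply_symm_apply w⟩
  have := iso_mem σ.symm hw
  rwa [σ.symm_apply_apply, σ.symm_apply_apply] at this

lemma first_step {c c₁ v : V} (q : T.Walk c₁ v) (hq : c ∉ q.support) : v ∈ Br T c c₁ := by
  show (T.deleteEdges {s(c, c₁)}).Reachable c₁ v
  rw [reachable_deleteEdges_iff_exists_walk]
  exact ⟨q, fun he => hq (q.fst_mem_support_of_mem_edges he)⟩

lemma move_aux (hT : T.IsTree) (σ : T ≃g T) {c v : V} (p : T.Walk c v) (hp : p.IsPath)
    (hc : σ c = c) (hv : σ v ≠ v) :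
    ∃ u x, σ u = u ∧ σ x ≠ x ∧ T.Adj u x ∧ v ∈ Br T u x ∧ c ∉ Br T u x ∧ Twin T u x := by
  induction p with
  | nil => exact absurd hc hv
  | cons h q ih =>
    rename_i c c₁ v
    rw [Walk.cons_isPath_iff] at hp
    by_cases h1 : σ c₁ = c₁
    · obtain ⟨u, x, hu, hx, hux, hvB, hcB, htw⟩ := ih hp.1 h1 hv
      refine ⟨u, x, hu, hx, hux, hvB, ?_, htw⟩
      intro hcin
      have h2 := leave hT hux h hcin hcB
      apply hx
      rw [← h2.1]
      exact hc
    · refine ⟨c, c₁, hc, h1, h, first_step q hp.2, not_mem hT h, h, σ c₁, σ, h1, ?_, ?_, rfl⟩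
      · have : T.Adj (σ c) (σ c₁) := σ.map_rel_iff.2 h
        rwa [hc] at this
      · have := iso_biso σ c c₁
        rwa [hc] at this

/-- Job MOVE. -/
theorem move : S_BR → S_MOVE := by
  intro _ V T hT σ c v hc hv
  classical
  obtain ⟨p⟩ := hT.connected.preconnected c v
  exact move_aux hT σ p.toPath.1 p.toPath.2 hc hv

lemma first_edge (hT : T.IsTree) {v w : V} (h : w ≠ v) : ∃ y, T.Adj v y ∧ w ∈ Br T v y := by
  classical
  obtain ⟨p0⟩ := hT.connected.preconnected v w
  obtain ⟨p, hp⟩ := p0.toPath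
  cases p with
  | nil => exact absurd rfl h
  | cons h q =>
    rename_i y
    rw [Walk.cons_isPath_iff] at hp
    exact ⟨y, h, first_step q hp.2⟩

/-- Job HALF. -/
theorem half : S_BR → S_HALF := by
  intro _ V _ T hT σ hσ
  classical
  haveI := Fintype.ofFinite V
  have hex : ∀ v, ∃ y, T.Adj v y ∧ σ v ∈ Br T v y := fun v => first_edge hT (hσ v)
  choose y hy1 hy2 using hex
  have hcard := hT.card_edgeFinset
  have hni : ¬ Function.Injective (fun v : V => (⟨s(v, y v), hy1 v⟩ : T.edgeSet)) := by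
    intro hinj
    have h1 : Nat.card V ≤ Nat.card T.edgeSet := Nat.card_le_card_of_injective _ hinj
    have h2 : T.edgeFinset.card = Nat.card T.edgeSet := by
      rw [edgeFinset, Set.toFinset_card, Nat.card_eq_fintype_card]
    rw [Nat.card_eq_fintype_card] at h1
    omega
  unfold Function.Injective at hni
  push Not at hni
  obtain ⟨a, b, hab, hne⟩ := hni
  rw [Subtype.mk.injEq, Sym2.eq_iff] at hab
  have h1 : a = y b ∧ y a = b := by
    rcases hab with h1 | h1
    · exact absurd h1.1 hne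
    · exact h1
  have hadj : T.Adj a b := by
    have := hy1 a
    rwa [h1.2] at this
  have hsa : σ a ∈ Br T a b := by
    have := hy2 a
    rwa [h1.2] at this
  have hsb : σ b ∈ Br T b a := by
    have := hy2 b
    rwa [← h1.1] at this
  have hcompl := compl_eq hT hadj
  have hsb' : σ b ∉ Br T a b := by
    rw [hcompl] at hsb
    exact hsb
  have hl := leave hT hadj (σ.map_rel_iff.2 hadj : T.Adj (σ a) (σ b)) hsa hsb'
  have hbi := iso_biso σ a b
  rw [hl.1, hl.2] at hbi
  refine ⟨a, b, hadj, ?_⟩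
  have hc1 : (Br T b a).ncard = (Br T a b).ncard := by
    have h3 : (σ '' (Br T a b)) = Br T b a := hbi.1.image_eq
    rw [← h3]
    exact Set.ncard_image_of_injective _ σ.injective
  have hc2 : (Br T a b).ncard + (Br T a b)ᶜ.ncard = Nat.card V :=
    Set.ncard_add_ncard_compl _ (Set.toFinite _) (Set.toFinite _)
  rw [← hcompl, hc1] at hc2
  show 2 * (Br T a b).ncard = Nat.card V
  omega

end Pool.Agent.Q272.FV
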