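import Pool.Agent.Q272.FV.Br

set_option autoImplicit false

/-! # Job SYM of project FV: extension and swap automorphisms -/

namespace Pool.Agent.Q272.FV

open SimpleGraph Q109.FV

variable {V : Type} {T : SimpleGraph V} {u x : V}

lemma adj_cross (hT : T.IsTree) (h : T.Adj u x) {a b : V} (ha : a ∈ Br T u x)
    (hb : b ∉ Br T u x) : T.Adj a b ↔ a = x ∧ b = u := by
  constructor
  · exact fun hab => leave hT h hab ha hb
  · rintro ⟨h1, h2⟩
    rw [h1, h2]
    exact h.symm

open Classical in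
/-- Extension by the identity. -/
noncomputable def extFun (B : Set V) (ψ : V → V) (w : V) : V := if w ∈ B then ψ w else w

lemma extFun_mem {B : Set V} {ψ : V → V} {w : V} (h : w ∈ B) : extFun B ψ w = ψ w := by
  unfold extFun
  rw [if_pos h]

lemma extFun_not {B : Set V} {ψ : V → V} {w : V} (h : w ∉ B) : extFun B ψ w = w := by
  unfold extFun
  rw [if_neg h]

lemma sym_one (hT : T.IsTree) (h : T.Adj u x) (ψ : V → V)
    (hψ : BIso T (Br T u x) (Br T u x) ψ) (hx : ψ x = x) :
    ∃ σ : T ≃g T, (∀ w ∈ Br T u x, σ w = ψ w) ∧ ∀ w, w ∉ Br T u x → σ w = w := by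
  set B := Br T u x with hB
  obtain ⟨⟨hmaps, hinj, hsurj⟩, hadj⟩ := hψ
  have hbij : Function.Bijective (extFun B ψ) := by
    constructor
    · intro a b hab
      by_cases ha : a ∈ B <;> by_cases hb : b ∈ B
      · rw [extFun_mem ha, extFun_mem hb] at hab
        exact hinj ha hb hab
      · rw [extFun_mem ha, extFun_not hb] at hab
        exact absurd (hab ▸ hmaps ha) hb
      · rw [extFun_not ha, extFun_mem hb] at hab
        exact absurd (hab ▸ hmaps hb) ha
      · rw [extFun_not ha, extFun_not hb] at hab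
        exact hab
    · intro b
      by_cases hb : b ∈ B
      · obtain ⟨a, ha, hab⟩ := hsurj hb
        exact ⟨a, by rw [extFun_mem ha, hab]⟩
      · exact ⟨b, extFun_not hb⟩
  have hxa : ∀ a ∈ B, (ψ a = x ↔ a = x) := by
    intro a ha
    constructor
    · intro h1
      exact hinj ha (mem_self T u x) (h1.trans hx.symm)
    · intro h1
      rw [h1, hx]
  have hiff : ∀ a b, T.Adj (extFun B ψ a) (extFun B ψ b) ↔ T.Adj a b := by
    intro a b
    by_cases ha : a ∈ B <;> by_cases hb : b ∈ B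
    · rw [extFun_mem ha, extFun_mem hb]
      exact hadj a ha b hb
    · rw [extFun_mem ha, extFun_not hb, adj_cross hT h (hmaps ha) hb, adj_cross hT h ha hb,
        hxa a ha]
    · rw [extFun_not ha, extFun_mem hb, T.adj_comm a (ψ b), T.adj_comm a b,
        adj_cross hT h (hmaps hb) ha, adj_cross hT h hb ha, hxa b hb]
    · rw [extFun_not ha, extFun_not hb]
  refine ⟨⟨Equiv.ofBijective _ hbij, fun {a b} => hiff a b⟩, fun w hw => extFun_mem hw,
    fun w hw => extFun_not hw⟩

open Classical in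
/-- The swap of two branches. -/
noncomputable def swapFun (B B' : Set V) (ψ θ : V → V) (w : V) : V :=
  if w ∈ B then ψ w else if w ∈ B' then θ w else w

lemma sym_two (hT : T.IsTree) (h : T.Adj u x) (x' : V) (ψ : V → V) (hne : x' ≠ x)
    (h' : T.Adj u x') (hψ : BIso T (Br T u x) (Br T u x') ψ) (hx : ψ x = x') :
    ∃ σ : T ≃g T, (∀ w ∈ Br T u x, σ w = ψ w ∧ σ (ψ w) = w) ∧
      ∀ w, w ∉ Br T u x → w ∉ Br T u x' → σ w = w := by
  have hdis := disj_branch hT h x' h' hne
  have hu : u ∉ Br T u x := not_mem hT h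
  have hu' : u ∉ Br T u x' := not_mem hT h'
  have hxB : x ∈ Br T u x := mem_self T u x
  have hxB' : x' ∈ Br T u x' := mem_self T u x'
  have hcr : ∀ {a b : V}, a ∈ Br T u x → b ∉ Br T u x → T.Adj a b → a = x ∧ b = u :=
    fun ha hb hab => leave hT h hab ha hb
  have hcr' : ∀ {a b : V}, a ∈ Br T u x' → b ∉ Br T u x' → T.Adj a b → a = x' ∧ b = u :=
    fun ha hb hab => leave hT h' hab ha hb
  generalize Br T u x = B at *
  generalize Br T u x' = B' at *
  rw [Set.disjoint_left] at hdis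
  obtain ⟨⟨hmaps, hinj, hsurj⟩, hadj⟩ := hψ
  have hex : ∀ w ∈ B', ∃ a, a ∈ B ∧ ψ a = w := fun w hw => by
    obtain ⟨a, ha, hab⟩ := hsurj hw
    exact ⟨a, ha, hab⟩
  classical
  set θ : V → V := fun w => if hw : w ∈ B' then (hex w hw).choose else w with hθ
  have hθ1 : ∀ w ∈ B', θ w ∈ B ∧ ψ (θ w) = w := by
    intro w hw
    have : θ w = (hex w hw).choose := by
      rw [hθ]
      simp only [dif_pos hw]
    rw [this]
    exact (hex w hw).choose_spec
  have hθ2 : ∀ w ∈ B, θ (ψ w) = w := by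
    intro w hw
    have h1 := hθ1 (ψ w) (hmaps hw)
    exact hinj h1.1 hw h1.2
  have f1 : ∀ w ∈ B, swapFun B B' ψ θ w = ψ w := by
    intro w hw
    unfold swapFun
    rw [if_pos hw]
  have f2 : ∀ w ∈ B', swapFun B B' ψ θ w = θ w := by
    intro w hw
    unfold swapFun
    rw [if_neg (fun hc => hdis hc hw), if_pos hw]
  have f3 : ∀ w, w ∉ B → w ∉ B' → swapFun B B' ψ θ w = w := by
    intro w hw hw'
    unfold swapFun
    rw [if_neg hw, if_neg hw']
  have hinv : Function.Involutive (swapFun B B' ψ θ) := by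
    intro w
    by_cases hw : w ∈ B
    · rw [f1 w hw, f2 _ (hmaps hw), hθ2 w hw]
    · by_cases hw' : w ∈ B'
      · rw [f2 w hw', f1 _ (hθ1 w hw').1, (hθ1 w hw').2]
      · rw [f3 w hw hw', f3 w hw hw']
  have hθx : θ x' = x := by
    rw [← hx]
    exact hθ2 x hxB
  have himp : ∀ a b, T.Adj a b → T.Adj (swapFun B B' ψ θ a) (swapFun B B' ψ θ b) := by
    intro a b hab
    by_cases ha : a ∈ B
    · by_cases hb : b ∈ B
      · rw [f1 a ha, f1 b hb]
        exact (hadj a ha b hb).2 hab
      · obtain ⟨rfl, rfl⟩ := hcr ha hb hab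
        rw [f1 _ ha, hx, f3 _ hb hu']
        exact h'.symm
    · by_cases hb : b ∈ B
      · obtain ⟨rfl, rfl⟩ := hcr hb ha hab.symm
        rw [f1 _ hb, hx, f3 _ ha hu']
        exact h'
      · by_cases ha' : a ∈ B'
        · by_cases hb' : b ∈ B'
          · rw [f2 a ha', f2 b hb']
            have h1 := hθ1 a ha'
            have h2 := hθ1 b hb'
            rw [← hadj _ h1.1 _ h2.1, h1.2, h2.2]
            exact hab
          · obtain ⟨rfl, rfl⟩ := hcr' ha' hb' hab
            rw [f2 _ ha', hθx, f3 _ hb hb']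
            exact h.symm
        · by_cases hb' : b ∈ B'
          · obtain ⟨rfl, rfl⟩ := hcr' hb' ha' hab.symm
            rw [f2 _ hb', hθx, f3 _ ha ha']
            exact h
          · rw [f3 a ha ha', f3 b hb hb']
            exact hab
  have hiff : ∀ a b, T.Adj (swapFun B B' ψ θ a) (swapFun B B' ψ θ b) ↔ T.Adj a b := by
    intro a b
    constructor
    · intro h1
      have h2 := himp _ _ h1
      rwa [hinv a, hinv b] at h2
    · exact himp a b
  refine ⟨⟨hinv.toPerm _, fun {a b} => hiff a b⟩, fun w hw => ⟨f1 w hw, ?_⟩, fun w hw hw' =>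
    f3 w hw hw'⟩
  show swapFun B B' ψ θ (ψ w) = w
  rw [f2 _ (hmaps hw), hθ2 w hw]

/-- Job SYM. -/
theorem sym : S_BR → S_SYM := by
  intro _ V T hT u x h
  exact ⟨fun ψ hψ hx => sym_one hT h ψ hψ hx,
    fun x' ψ hne h' hψ hx => sym_two hT h x' ψ hne h' hψ hx⟩

end Pool.Agent.Q272.FV
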