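import Pool.Agent.Q272.FV.Sym
import Pool.Agent.Q272.FV.Move

set_option autoImplicit false

/-! # Job UNIQ of project FV -/

namespace Pool.Agent.Q272.FV

open SimpleGraph Q109.FV

variable {V : Type} {T : SimpleGraph V} {u x : V}

lemma uniq_exists [Finite V] (hT : T.IsTree) (v : V) (N : ℕ) : ∀ u x, Twin T u x →
    v ∈ Br T u x → (Br T u x).ncard = N → ∃ u' x', Twin T u' x' ∧ v ∈ BF T u' x' := by
  induction N using Nat.strong_induction_on with
  | _ N ih =>
    intro u x htw hv hN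
    by_cases hvB : v ∈ BF T u x
    · exact ⟨u, x, htw, hvB⟩
    · have hex : ∃ ψ : V → V, BIso T (Br T u x) (Br T u x) ψ ∧ ψ x = x ∧ ψ v ≠ v := by
        by_contra hcon
        push Not at hcon
        exact hvB ⟨hv, hcon⟩
      obtain ⟨ψ, hψ, hψx, hψv⟩ := hex
      have hux := htw.1
      obtain ⟨σ, hσ1, hσ2⟩ := sym_one hT hux ψ hψ hψx
      have hu : u ∉ Br T u x := not_mem hT hux
      obtain ⟨u', x', hu', hx', hux', hv', huB, htw'⟩ :=
        move br V T hT σ u v (hσ2 u hu) (by rw [hσ1 v hv]; exact hψv)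
      have hx'B : x' ∈ Br T u x := by
        by_contra hcon
        exact hx' (hσ2 x' hcon)
      have hsub : Br T u' x' ⊆ Br T u x :=
        conn_subset hT hux _ (induce_isTree hT u' x').connected.preconnected
          ⟨x', mem_self T u' x', hx'B⟩ (fun hc => huB hc.1)
      have hxn : x ∉ Br T u' x' := by
        intro hxin
        have h1 := leave hT hux' hux.symm hxin huB
        apply hx'
        rw [← h1.1, hσ1 x (mem_self T u x), hψx]
      have hlt : (Br T u' x').ncard < N := by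
        rw [← hN]
        apply Set.ncard_lt_ncard _ (Set.toFinite _)
        refine ⟨hsub, fun hc => hxn (hc (mem_self T u x))⟩
      exact ih _ hlt u' x' htw' hv' rfl

lemma twin_size [Finite V] (hT : T.IsTree) (htw : Twin T u x) :
    2 * (Br T u x).ncard + 1 ≤ Nat.card V ∧ (Br T u x).ncard ≤ (Br T u x)ᶜ.ncard := by
  obtain ⟨hux, x', ψ, hne, hux', hψ, hψx⟩ := htw
  have hd := disj_branch hT hux x' hux' hne
  have hc : (Br T u x').ncard = (Br T u x).ncard := by
    rw [← hψ.1.image_eq]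
    exact Set.ncard_image_of_injOn hψ.1.injOn
  have hu : u ∉ Br T u x ∪ Br T u x' := by
    rintro (h | h)
    · exact not_mem hT hux h
    · exact not_mem hT hux' h
  constructor
  · have h1 : (insert u (Br T u x ∪ Br T u x')).ncard = (Br T u x).ncard + (Br T u x').ncard + 1 := by
      rw [Set.ncard_insert_of_notMem hu (Set.toFinite _),
        Set.ncard_union_eq hd (Set.toFinite _) (Set.toFinite _)]
    have h2 : (insert u (Br T u x ∪ Br T u x')).ncard ≤ (Set.univ : Set V).ncard :=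
      Set.ncard_le_ncard (Set.subset_univ _) (Set.toFinite _)
    rw [Set.ncard_univ] at h2
    omega
  · rw [← hc]
    apply Set.ncard_le_ncard _ (Set.toFinite _)
    intro w hw hw'
    exact Set.disjoint_left.1 hd hw' hw

lemma nested [Finite V] (hT : T.IsTree) {u' x' v : V} (h : Twin T u x) (h' : Twin T u' x')
    (hv : v ∈ Br T u x) (hv' : v ∈ Br T u' x') :
    Br T u' x' ⊆ Br T u x ∨ Br T u x ⊆ Br T u' x' := by
  by_cases h1 : u ∈ Br T u' x' ∧ x ∈ Br T u' x'
  · by_cases h2 : u' ∈ Br T u x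
    · exfalso
      have h3 : (Br T u x)ᶜ ⊆ Br T u' x' :=
        conn_subset hT h'.1 _ (induce_compl_isTree hT h.1).connected.preconnected
          ⟨u, not_mem hT h.1, h1.1⟩ (fun hc => hc.1 h2)
      have h4 := Set.ncard_le_ncard h3 (Set.toFinite _)
      have h5 := Set.ncard_add_ncard_compl (Br T u x) (Set.toFinite _) (Set.toFinite _)
      have h6 := (twin_size hT h).1
      have h7 := (twin_size hT h').1
      omega
    · right
      exact conn_subset hT h'.1 _ (induce_isTree hT u x).connected.preconnected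
        ⟨v, hv, hv'⟩ (fun hc => h2 hc.1)
  · left
    exact conn_subset hT h.1 _ (induce_isTree hT u' x').connected.preconnected
      ⟨v, hv', hv⟩ h1

lemma nested_eq [Finite V] (hT : T.IsTree) {u' x' v : V} (h : Twin T u x) (h' : Twin T u' x')
    (hv : v ∈ BF T u x) (hv' : v ∈ BF T u' x') (hsub : Br T u' x' ⊆ Br T u x) :
    u' = u ∧ x' = x := by
  by_contra hne
  have hux := h.1
  have hux' := h'.1
  have huB := not_mem hT hux
  have hu'B : u' ∈ Br T u x := by
    by_contra hcon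
    have h1 := leave hT hux hux'.symm (hsub (mem_self T u' x')) hcon
    exact hne ⟨h1.2, h1.1⟩
  obtain ⟨-, x'', ρ, hx''ne, hux'', hρ, hρx⟩ := h'
  have hu'B' : u' ∉ Br T u' x' := not_mem hT hux'
  have hlt : (Br T u' x').ncard < (Br T u x).ncard := by
    apply Set.ncard_lt_ncard _ (Set.toFinite _)
    exact ⟨hsub, fun hc => hu'B' (hc hu'B)⟩
  have hcard : (Br T u' x'').ncard = (Br T u' x').ncard := by
    rw [← hρ.1.image_eq]
    exact Set.ncard_image_of_injOn hρ.1.injOn
  have hd := disj_branch hT hux' x'' hux'' hx''ne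
  have huB'' : u ∉ Br T u' x'' := by
    intro hc
    have h3 : (Br T u x)ᶜ ⊆ Br T u' x'' :=
      conn_subset hT hux'' _ (induce_compl_isTree hT hux).connected.preconnected
        ⟨u, huB, hc⟩ (fun hc => hc.1 hu'B)
    have h4 := Set.ncard_le_ncard h3 (Set.toFinite _)
    have h5 := (twin_size hT h).2
    omega
  have hx''B : x'' ∈ Br T u x := by
    by_contra hcon
    have h1 := leave hT hux hux'' hu'B hcon
    apply huB''
    rw [← h1.2]
    exact mem_self T u' x''
  have hsub'' : Br T u' x'' ⊆ Br T u x :=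
    conn_subset hT hux _ (induce_isTree hT u' x'').connected.preconnected
      ⟨x'', mem_self T u' x'', hx''B⟩ (fun hc => huB'' hc.1)
  have hxB' : x ∉ Br T u' x' := by
    intro hc
    have h1 := leave hT hux' hux.symm hc (fun hc' => huB (hsub hc'))
    exact huB (h1.2 ▸ hu'B)
  have hxB'' : x ∉ Br T u' x'' := by
    intro hc
    have h1 := leave hT hux'' hux.symm hc huB''
    exact huB (h1.2 ▸ hu'B)
  obtain ⟨σ, hσ1, hσ2⟩ := sym_two hT hux' x'' ρ hx''ne hux'' hρ hρx
  have hσ3 : ∀ w ∈ Br T u' x'', σ w ∈ Br T u' x' ∧ σ (σ w) = w := by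
    intro w hw
    obtain ⟨w₀, hw₀, hw₀w⟩ := hρ.1.surjOn hw
    have h1 := hσ1 w₀ hw₀
    rw [hw₀w] at h1
    rw [h1.2]
    exact ⟨hw₀, h1.1⟩
  have hσ4 : ∀ w, σ (σ w) = w := by
    intro w
    by_cases h1 : w ∈ Br T u' x'
    · rw [(hσ1 w h1).1]
      exact (hσ1 w h1).2
    · by_cases h2 : w ∈ Br T u' x''
      · exact (hσ3 w h2).2
      · rw [hσ2 w h1 h2, hσ2 w h1 h2]
  have hσ5 : ∀ w ∈ Br T u x, σ w ∈ Br T u x := by
    intro w hw
    by_cases h1 : w ∈ Br T u' x'
    · rw [(hσ1 w h1).1]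
      exact hsub'' (hρ.1.mapsTo h1)
    · by_cases h2 : w ∈ Br T u' x''
      · exact hsub (hσ3 w h2).1
      · rw [hσ2 w h1 h2]
        exact hw
  have hbi : BIso T (Br T u x) (Br T u x) σ := by
    refine ⟨⟨hσ5, σ.injective.injOn, fun w hw => ⟨σ w, hσ5 w hw, hσ4 w⟩⟩,
      fun a _ b _ => σ.map_rel_iff⟩
  have hfix : σ v = v := hv.2 σ hbi (hσ2 x hxB' hxB'')
  have h8 : σ v ∈ Br T u' x'' := by
    rw [(hσ1 v hv'.1).1]
    exact hρ.1.mapsTo hv'.1
  rw [hfix] at h8
  exact Set.disjoint_left.1 hd hv'.1 h8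

/-- Job UNIQ. -/
theorem uniq : S_BR → S_SYM → S_MOVE → S_UNIQ := by
  intro _ _ _ V _ T hT v hW
  obtain ⟨u, x, htw, hv⟩ := hW
  obtain ⟨u₁, x₁, htw₁, hv₁⟩ := uniq_exists hT v _ u x htw hv rfl
  refine ⟨(u₁, x₁), ⟨htw₁, hv₁⟩, ?_⟩
  rintro ⟨u₂, x₂⟩ ⟨htw₂, hv₂⟩
  simp only at htw₂ hv₂
  rcases nested hT htw₁ htw₂ hv₁.1 hv₂.1 with hs | hs
  · have := nested_eq hT htw₁ htw₂ hv₁ hv₂ hs
    rw [this.1, this.2]
  · have := nested_eq hT htw₂ htw₁ hv₂ hv₁ hs
    rw [this.1, this.2]

end Pool.Agent.Q272.FV
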