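import Pool.Agent.Q109.FV.Stm2

set_option autoImplicit false

/-! # Job NUM of project FV: rough numerical bounds -/

namespace Pool.Agent.Q272.FV

open SimpleGraph Q109.FV Filter Topology

lemma aut_ge {S : Type} [Finite S] (t : SimpleGraph S) (r : S) : 1 ≤ aut t r := by
  unfold aut
  haveI : Finite (t ≃g t) := Finite.of_injective (fun σ : t ≃g t => (σ : S → S))
    (fun a b h => RelIso.ext (congrFun h))
  haveI : Nonempty {σ : t ≃g t // σ r = r} := ⟨⟨RelIso.refl _, rfl⟩⟩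
  exact Nat.card_pos

lemma rfix_le (s : ℕ) (t : SimpleGraph (Fin s)) (r : Fin s) : rfix t r ≤ s := by
  unfold rfix
  calc _ ≤ Nat.card (Fin s) := Nat.card_le_card_of_injective (fun v => v.1) Subtype.val_injective
    _ = s := Nat.card_fin s

/-- Graphs on at most two vertices. -/
lemma fix_two (s : ℕ) (hs : s ≤ 2) (t : SimpleGraph (Fin s)) (r : Fin s) (σ : t ≃g t)
    (h : σ r = r) (v : Fin s) : σ v = v := by
  by_cases hv : v = r
  · rw [hv, h]
  · have h1 : σ v ≠ r := by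
      intro h2
      exact hv (σ.injective (h2.trans h.symm))
    have h3 := v.2
    have h4 := r.2
    have h5 := (σ v).2
    have h6 : (v : ℕ) ≠ r := fun hc => hv (Fin.ext hc)
    have h7 : (σ v : ℕ) ≠ r := fun hc => h1 (Fin.ext hc)
    apply Fin.ext
    omega

lemma aut_two (s : ℕ) (hs : s ≤ 2) (t : SimpleGraph (Fin s)) (r : Fin s) : aut t r = 1 := by
  unfold aut
  rw [Nat.card_eq_one_iff_unique]
  refine ⟨⟨?_⟩, ⟨⟨RelIso.refl _, rfl⟩⟩⟩
  rintro ⟨σ, hσ⟩ ⟨τ, hτ⟩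
  apply Subtype.ext
  apply RelIso.ext
  intro v
  show σ v = τ v
  rw [fix_two s hs t r σ hσ v, fix_two s hs t r τ hτ v]

lemma rfix_two (s : ℕ) (hs : s ≤ 2) (t : SimpleGraph (Fin s)) (r : Fin s) : rfix t r = s := by
  unfold rfix
  calc Nat.card {v : Fin s // ∀ σ : t ≃g t, σ r = r → σ v = v} = Nat.card (Fin s) :=
        Nat.card_congr ⟨fun v => v.1, fun v => ⟨v, fun σ hσ => fix_two s hs t r σ hσ v⟩,
          fun _ => rfl, fun _ => rfl⟩
    _ = s := Nat.card_fin s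

lemma term_small (hc : ∀ n, 1 ≤ n → (trees n).card = n ^ (n - 2)) (s : ℕ) (h1 : 1 ≤ s)
    (hs : s ≤ 2) : term s = Real.exp (-(s : ℝ)) / s.factorial *
      ((s : ℝ) * ((s : ℝ) * (1 - Real.exp (-(Real.exp (-(s : ℝ))))))) := by
  unfold term
  congr 1
  have e : ∀ t ∈ trees s, ∑ r : Fin s, (rfix t r : ℝ) *
      (1 - Real.exp (-(Real.exp (-(s : ℝ)) / aut t r))) =
      (s : ℝ) * ((s : ℝ) * (1 - Real.exp (-(Real.exp (-(s : ℝ)))))) := by
    intro t _
    have e2 : ∀ r : Fin s, (rfix t r : ℝ) *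
      (1 - Real.exp (-(Real.exp (-(s : ℝ)) / aut t r))) =
      (s : ℝ) * (1 - Real.exp (-(Real.exp (-(s : ℝ))))) := by
      intro r
      rw [aut_two s hs, rfix_two s hs, Nat.cast_one, div_one]
    rw [Finset.sum_congr rfl (fun r _ => e2 r), Finset.sum_const, Finset.card_univ,
      Fintype.card_fin, nsmul_eq_mul]
  rw [Finset.sum_congr rfl e, Finset.sum_const, hc s h1]
  have h3 : s ^ (s - 2) = 1 := by
    have : s - 2 = 0 := by omega
    rw [this, pow_zero]
  rw [h3, one_smul]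

lemma inner_bound (s : ℕ) (t : SimpleGraph (Fin s)) (r : Fin s) :
    0 ≤ (rfix t r : ℝ) * (1 - Real.exp (-(Real.exp (-(s : ℝ)) / aut t r))) ∧
    (rfix t r : ℝ) * (1 - Real.exp (-(Real.exp (-(s : ℝ)) / aut t r))) ≤
      (s : ℝ) * Real.exp (-(s : ℝ)) := by
  have ha : (1 : ℝ) ≤ aut t r := by exact_mod_cast aut_ge t r
  have hr : (rfix t r : ℝ) ≤ s := by exact_mod_cast rfix_le s t r
  have hr0 : (0 : ℝ) ≤ rfix t r := Nat.cast_nonneg _
  have he : 0 < Real.exp (-(s : ℝ)) := Real.exp_pos _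
  have h1 : 0 ≤ Real.exp (-(s : ℝ)) / aut t r := by positivity
  have h2 : Real.exp (-(s : ℝ)) / aut t r ≤ Real.exp (-(s : ℝ)) := div_le_self he.le ha
  have h3 : 0 ≤ 1 - Real.exp (-(Real.exp (-(s : ℝ)) / aut t r)) := by
    have : Real.exp (-(Real.exp (-(s : ℝ)) / aut t r)) ≤ 1 := by
      rw [Real.exp_le_one_iff]
      linarith
    linarith
  have h4 : 1 - Real.exp (-(Real.exp (-(s : ℝ)) / aut t r)) ≤ Real.exp (-(s : ℝ)) := by
    have := Real.add_one_le_exp (-(Real.exp (-(s : ℝ)) / aut t r))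
    linarith
  exact ⟨mul_nonneg hr0 h3, mul_le_mul hr h4 h3 (Nat.cast_nonneg _)⟩

lemma term_nonneg (s : ℕ) : 0 ≤ term s := by
  unfold term
  apply mul_nonneg (by positivity)
  exact Finset.sum_nonneg fun t _ => Finset.sum_nonneg fun r _ => (inner_bound s t r).1

lemma term_le (hc : ∀ n, 1 ≤ n → (trees n).card = n ^ (n - 2)) (s : ℕ) (hs : 2 ≤ s) :
    term s ≤ (s : ℝ) ^ s / s.factorial * Real.exp (-(2 * (s : ℝ))) := by
  unfold term
  have h1 : ∑ t ∈ trees s, ∑ r : Fin s,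
      (rfix t r : ℝ) * (1 - Real.exp (-(Real.exp (-(s : ℝ)) / aut t r))) ≤
      (s : ℝ) ^ s * Real.exp (-(s : ℝ)) := by
    calc _ ≤ ∑ _t ∈ trees s, ∑ _r : Fin s, (s : ℝ) * Real.exp (-(s : ℝ)) :=
          Finset.sum_le_sum fun t _ => Finset.sum_le_sum fun r _ => (inner_bound s t r).2
      _ = (s : ℝ) ^ s * Real.exp (-(s : ℝ)) := by
          rw [Finset.sum_const, Finset.sum_const, Finset.card_univ, Fintype.card_fin,
            hc s (by omega), nsmul_eq_mul, nsmul_eq_mul]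
          obtain ⟨k, rfl⟩ := Nat.exists_eq_add_of_le' hs
          rw [Nat.add_sub_cancel]
          push_cast
          ring
  calc _ ≤ Real.exp (-(s : ℝ)) / s.factorial * ((s : ℝ) ^ s * Real.exp (-(s : ℝ))) :=
        mul_le_mul_of_nonneg_left h1 (by positivity)
    _ = (s : ℝ) ^ s / s.factorial * (Real.exp (-(s : ℝ)) * Real.exp (-(s : ℝ))) := by ring
    _ = _ := by
        rw [← Real.exp_add]
        congr 2
        ring

lemma exp_lower (y : ℝ) (h0 : 0 ≤ y) (h1 : y ≤ 1) :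
    1 - y + y ^ 2 / 2 - y ^ 3 / 6 - y ^ 4 * (5 / 96) ≤ Real.exp (-y) := by
  have h := Real.exp_bound (x := -y) (n := 4) (by rw [abs_neg, abs_of_nonneg h0]; exact h1)
    (by norm_num)
  rw [abs_neg, abs_of_nonneg h0] at h
  have h2 := (abs_le.1 h).1
  have e : ∑ m ∈ Finset.range 4, (-y) ^ m / (m.factorial : ℝ) =
      1 - y + y ^ 2 / 2 - y ^ 3 / 6 := by
    simp [Finset.sum_range_succ, Nat.factorial]
    ring
  rw [e] at h2
  have e2 : y ^ 4 * (((4 : ℕ).succ : ℝ) / (((4 : ℕ).factorial : ℝ) * (4 : ℕ))) =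
      y ^ 4 * (5 / 96) := by
    norm_num [Nat.factorial]
  rw [e2] at h2
  linarith

lemma exp_upper (y : ℝ) (h0 : 0 ≤ y) (h1 : y ≤ 1) :
    Real.exp (-y) ≤ 1 - y + y ^ 2 / 2 := by
  have h := Real.quadratic_le_exp_of_nonneg h0
  have h2 : Real.exp (-y) * Real.exp y = 1 := by
    rw [← Real.exp_add]
    simp
  have h3 : 0 < Real.exp (-y) := Real.exp_pos _
  have h4 : 0 < 1 + y + y ^ 2 / 2 := by positivity
  have h5 : Real.exp (-y) * (1 + y + y ^ 2 / 2) ≤ 1 :=
    (mul_le_mul_of_nonneg_left h h3.le).trans h2.le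
  have h6 : 1 ≤ (1 - y + y ^ 2 / 2) * (1 + y + y ^ 2 / 2) := by
    have : (1 - y + y ^ 2 / 2) * (1 + y + y ^ 2 / 2) = 1 + y ^ 4 / 4 := by ring
    rw [this]
    have : 0 ≤ y ^ 4 := by positivity
    linarith
  exact le_of_mul_le_mul_right (h5.trans h6) h4

/-- Job NUM. -/
theorem num : S_NUM := by
  intro hc hsum
  have e1 := Real.exp_neg_one_gt_d9
  have e2 := Real.exp_neg_one_lt_d9
  set z : ℝ := Real.exp (-1) with hz
  have z2 : Real.exp (-2) = z ^ 2 := by
    rw [hz, ← Real.exp_nat_mul]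
    norm_num
  have z3 : Real.exp (-6) = z ^ 6 := by
    rw [hz, ← Real.exp_nat_mul]
    norm_num
  have z4 : Real.exp (-4) = z ^ 4 := by
    rw [hz, ← Real.exp_nat_mul]
    norm_num
  have hz0 : (0.36787 : ℝ) ≤ z := by linarith
  have hz1 : z ≤ 0.36788 := by linarith
  have hzz0 : (0.1353 : ℝ) ≤ z ^ 2 := by nlinarith
  have hzz1 : z ^ 2 ≤ 0.13534 := by nlinarith
  have t0 : term 0 = 0 := by
    unfold term
    simp
  have t1 : term 1 = z * (1 - Real.exp (-z)) := by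
    have := term_small hc 1 le_rfl (by norm_num)
    rw [this]
    norm_num [Nat.factorial]
    rw [hz]
  have t2 : term 2 = 2 * z ^ 2 * (1 - Real.exp (-(z ^ 2))) := by
    have := term_small hc 2 (by norm_num) le_rfl
    rw [this, ← z2]
    norm_num [Nat.factorial]
    ring
  have t3 : term 3 ≤ 27 / 6 * z ^ 6 := by
    have := term_le hc 3 (by norm_num)
    refine this.trans (le_of_eq ?_)
    rw [← z3]
    norm_num [Nat.factorial]
  have t3' := term_nonneg 3
  have b1 := exp_lower z (by linarith) (by linarith)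
  have b2 := exp_upper z (by linarith) (by linarith)
  have b3 := exp_lower (z ^ 2) (by positivity) (by linarith)
  have b4 := exp_upper (z ^ 2) (by positivity) (by linarith)
  have hsplit := hsum.sum_add_tsum_nat_add 4
  simp only [Finset.sum_range_succ, Finset.range_zero, Finset.sum_empty, zero_add] at hsplit
  have hgeo : HasSum (fun s : ℕ => z ^ 4 * z ^ s) (z ^ 4 * (1 - z)⁻¹) :=
    (hasSum_geometric_of_lt_one (by linarith) (by linarith)).mul_left _
  have htail : ∀ s : ℕ, term (s + 4) ≤ z ^ 4 * z ^ s := by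
    intro s
    have h1 := term_le hc (s + 4) (by omega)
    have h2 := Real.pow_div_factorial_le_exp ((s + 4 : ℕ) : ℝ) (Nat.cast_nonneg _) (s + 4)
    calc term (s + 4) ≤ _ := h1
      _ ≤ Real.exp ((s + 4 : ℕ) : ℝ) * Real.exp (-(2 * ((s + 4 : ℕ) : ℝ))) :=
          mul_le_mul_of_nonneg_right h2 (Real.exp_pos _).le
      _ = z ^ 4 * z ^ s := by
          rw [← Real.exp_add, ← pow_add, hz, ← Real.exp_nat_mul]
          congr 1
          push_cast
          ring
  have htail2 : ∑' s, term (s + 4) ≤ z ^ 4 * (1 - z)⁻¹ := by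
    rw [← hgeo.tsum_eq]
    exact ((summable_nat_add_iff 4).2 hsum).tsum_le_tsum htail hgeo.summable
  have htail3 : 0 ≤ ∑' s, term (s + 4) := tsum_nonneg fun s => term_nonneg _
  have hinv : z ^ 4 * (1 - z)⁻¹ ≤ 0.02898 := by
    have h1 : (1 - z)⁻¹ ≤ 1 / 0.63212 := by
      rw [inv_eq_one_div]
      apply one_div_le_one_div_of_le (by norm_num) (by linarith)
    have h2 : z ^ 4 ≤ 0.13534 ^ 2 := by
      have : z ^ 4 = (z ^ 2) ^ 2 := by ring
      rw [this]
      exact pow_le_pow_left₀ (by positivity) hzz1 2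
    calc z ^ 4 * (1 - z)⁻¹ ≤ 0.13534 ^ 2 * (1 / 0.63212) := by
          apply mul_le_mul h2 h1 _ (by norm_num)
          exact inv_nonneg.2 (by linarith)
      _ ≤ 0.02898 := by norm_num
  have hz6 : z ^ 6 ≤ 0.00248 := by
    have : z ^ 6 = (z ^ 2) ^ 3 := by ring
    rw [this]
    calc (z ^ 2) ^ 3 ≤ 0.13534 ^ 3 := pow_le_pow_left₀ (by positivity) hzz1 3
      _ ≤ 0.00248 := by norm_num
  -- term 1
  have u1 : 1 - Real.exp (-z) ≤ 0.3096 := by
    have h1 : z ^ 3 ≤ 0.36788 ^ 3 := pow_le_pow_left₀ (by linarith) hz1 3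
    have h2 : z ^ 4 ≤ 0.36788 ^ 4 := pow_le_pow_left₀ (by linarith) hz1 4
    norm_num at h1 h2 ⊢
    linarith
  have l1 : 0.3001 ≤ 1 - Real.exp (-z) := by linarith
  have u2 : 1 - Real.exp (-(z ^ 2)) ≤ 0.1267 := by
    have h1 : (z ^ 2) ^ 3 ≤ 0.13534 ^ 3 := pow_le_pow_left₀ (by positivity) hzz1 3
    have h2 : (z ^ 2) ^ 4 ≤ 0.13534 ^ 4 := pow_le_pow_left₀ (by positivity) hzz1 4
    have h3 : 0.1353 ^ 2 ≤ (z ^ 2) ^ 2 := pow_le_pow_left₀ (by norm_num) hzz0 2
    norm_num at h1 h2 h3 ⊢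
    linarith
  have l2 : 0.1261 ≤ 1 - Real.exp (-(z ^ 2)) := by
    have h3 : (z ^ 2) ^ 2 ≤ 0.13534 ^ 2 := pow_le_pow_left₀ (by positivity) hzz1 2
    norm_num at h3 ⊢
    linarith
  have T1u : term 1 ≤ 0.36788 * 0.3096 := by
    rw [t1]
    exact mul_le_mul hz1 u1 (by linarith) (by norm_num)
  have T1l : 0.36787 * 0.3001 ≤ term 1 := by
    rw [t1]
    exact mul_le_mul hz0 l1 (by norm_num) (by linarith)
  have T2u : term 2 ≤ 2 * 0.13534 * 0.1267 := by
    rw [t2]
    exact mul_le_mul (by linarith) u2 (by linarith) (by norm_num)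
  have T2l : 2 * 0.1353 * 0.1261 ≤ term 2 := by
    rw [t2]
    exact mul_le_mul (by linarith) l2 (by norm_num) (by positivity)
  norm_num at T1u T1l T2u T2l hinv hz6 ⊢
  constructor <;> linarith

end Pool.Agent.Q272.FV
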